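import Pool.Agent.Q216.PD.Stm
import Pool.Agent.Y34.EL.All
import Pool.Agent.Y219.EL.Axis

/-!
# Project PD (helper216), job LIM (helper184)

If `h` has an axis in the second factor and is there a limit of elements with fixed points, then the
axis bounds strips of unbounded width and `ℤ²` is a subgroup.
-/

set_option autoImplicit false

universe u v

open Metric Set Filter Topology
open Pool.Agent.TH60.FP Pool.Agent.Y34.HB Pool.Agent.Y34.EL Pool.Agent.Y155.HB

namespace Pool.Agent.Q184.PD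

open Pool.Agent.Q216.PD

section

variable {X : Type u} [MetricSpace X] {G : Type v} [Group G] [MulAction G X]

/-- an axis through a point with minimal displacement -/
lemma axis_min (hX : CN X) [ProperSpace X] [IsIsometricSMul G X] (g : G) (y : X) (δ : ℝ)
    (hδ : dist y (g • y) = δ) (hδ0 : 0 < δ) (hy : ∀ z : X, δ ≤ dist z (g • z)) :
    ∃ c : ℝ → X, Axis g δ c ∧ c 0 = y := by
  have horb := Pool.Agent.Y219.EL.orbit_dist g (y := y)
    (by rw [hδ]; exact (Pool.Agent.Y219.EL.doubling hX g hy · y))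
  have hz := Pool.Agent.Y219.EL.orbit_zdist g horb
  rw [hδ] at hz
  -- the segment
  have hseg : ∀ s : ℝ, ∃ m : X, 0 ≤ s → s ≤ δ → Dv y (g • y) (s / δ) m := by
    intro s
    by_cases h : 0 ≤ s ∧ s ≤ δ
    · obtain ⟨m, hm⟩ := dv_exists hX y (g • y) (s / δ) (div_nonneg h.1 hδ0.le)
        ((div_le_one hδ0).2 h.2)
      exact ⟨m, fun _ _ => hm⟩
    · exact ⟨y, fun h1 h2 => absurd ⟨h1, h2⟩ h⟩
  choose w hw using hseg
  have hww : ∀ s t : ℝ, 0 ≤ s → s ≤ t → t ≤ δ → dist (w s) (w t) = t - s := by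
    intro s t hs hst ht
    rw [Pool.Agent.Y219.EL.dv_dist (hw s hs (hst.trans ht)) (hw t (hs.trans hst) ht)
      (div_nonneg hs hδ0.le) ((div_le_one hδ0).2 ht) (div_le_div_of_nonneg_right hst hδ0.le), hδ,
      ← sub_div, div_mul_cancel₀ _ hδ0.ne']
  have hyw : ∀ s : ℝ, 0 ≤ s → s ≤ δ → dist y (w s) ≤ s := by
    intro s hs hsδ
    have h1 := (hw s hs hsδ).left (div_nonneg hs hδ0.le)
    rwa [hδ, div_mul_cancel₀ _ hδ0.ne'] at h1
  have hgw : ∀ s : ℝ, 0 ≤ s → s ≤ δ → dist (w s) (g • y) ≤ δ - s := by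
    intro s hs hsδ
    have h1 := (hw s hs hsδ).right ((div_le_one hδ0).2 hsδ)
    rwa [hδ, sub_mul, one_mul, div_mul_cancel₀ _ hδ0.ne'] at h1
  -- the axis
  set i : ℝ → ℤ := fun t => ⌊t / δ⌋ with hi
  set c : ℝ → X := fun t => g ^ i t • w (t - i t * δ) with hc
  have hi1 : ∀ t, 0 ≤ t - i t * δ := by
    intro t
    have h1 : (i t : ℝ) ≤ t / δ := Int.floor_le _
    rw [le_div_iff₀ hδ0] at h1
    linarith
  have hi2 : ∀ t, t - i t * δ ≤ δ := by
    intro t
    have h1 : t / δ < i t + 1 := Int.lt_floor_add_one _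
    rw [div_lt_iff₀ hδ0] at h1
    linarith
  have hle : ∀ s t : ℝ, s ≤ t → dist (c s) (c t) = t - s := by
    intro s t hst
    have hij : i s ≤ i t := Int.floor_le_floor (div_le_div_of_nonneg_right hst hδ0.le)
    rcases hij.eq_or_lt with h | h
    · show dist (g ^ i s • w (s - i s * δ)) (g ^ i t • w (t - i t * δ)) = t - s
      rw [← h, dist_smul, hww _ _ (hi1 s) (by linarith) (by rw [h]; exact hi2 t)]
      ring
    · have hcs1 : dist (g ^ i s • y) (c s) ≤ s - i s * δ := by
        show dist (g ^ i s • y) (g ^ i s • w (s - i s * δ)) ≤ _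
        rw [dist_smul]
        exact hyw _ (hi1 s) (hi2 s)
      have hcs2 : dist (c s) (g ^ (i s + 1) • y) ≤ δ - (s - i s * δ) := by
        show dist (g ^ i s • w (s - i s * δ)) (g ^ (i s + 1) • y) ≤ _
        rw [zpow_add_one, mul_smul, dist_smul]
        exact hgw _ (hi1 s) (hi2 s)
      have hct1 : dist (g ^ i t • y) (c t) ≤ t - i t * δ := by
        show dist (g ^ i t • y) (g ^ i t • w (t - i t * δ)) ≤ _
        rw [dist_smul]
        exact hyw _ (hi1 t) (hi2 t)
      have hct2 : dist (c t) (g ^ (i t + 1) • y) ≤ δ - (t - i t * δ) := by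
        show dist (g ^ i t • w (t - i t * δ)) (g ^ (i t + 1) • y) ≤ _
        rw [zpow_add_one, mul_smul, dist_smul]
        exact hgw _ (hi1 t) (hi2 t)
      apply le_antisymm
      · have h1 := dist_triangle4 (c s) (g ^ (i s + 1) • y) (g ^ i t • y) (c t)
        have h2 := hz (i s + 1) (i t) h
        push_cast at h2
        rw [h2] at h1
        nlinarith
      · have h1 := dist_triangle4 (g ^ i s • y) (c s) (c t) (g ^ (i t + 1) • y)
        have h2 := hz (i s) (i t + 1) (by omega)
        push_cast at h2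
        rw [h2] at h1
        nlinarith
  refine ⟨c, ⟨Isometry.of_dist_eq fun s t => ?_, fun t => ?_⟩, ?_⟩
  · rcases le_total s t with h | h
    · rw [hle s t h, Real.dist_eq, abs_sub_comm, abs_of_nonneg (by linarith)]
    · rw [dist_comm, hle t s h, Real.dist_eq, abs_of_nonneg (by linarith)]
  · have h1 : i (t + δ) = i t + 1 := by
      show ⌊(t + δ) / δ⌋ = ⌊t / δ⌋ + 1
      rw [add_div, div_self hδ0.ne', Int.floor_add_one]
    show g • g ^ i t • w (t - i t * δ) = g ^ i (t + δ) • w (t + δ - i (t + δ) * δ)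
    rw [h1, add_comm (i t) 1, zpow_add, zpow_one, mul_smul]
    congr 3
    push_cast
    ring
  · have h1 : i 0 = 0 := by
      show ⌊(0 : ℝ) / δ⌋ = 0
      rw [zero_div, Int.floor_zero]
    have h2 : c 0 = w 0 := by
      show g ^ i 0 • w (0 - i 0 * δ) = w 0
      rw [h1, zpow_zero, one_smul]
      congr 1
      push_cast
      ring
    rw [h2]
    have h3 := hyw 0 le_rfl hδ0.le
    exact (dist_le_zero.1 h3).symm

/-- fixed points of the `w i` leave every ball -/
lemma far (hX : ProperSpace X) [IsIsometricSMul G X] (h : G) (τ : ℝ) (hτ : 0 < τ)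
    (hmin : ∀ z : X, τ ≤ dist z (h • z)) (w : ℕ → G)
    (hw : ∀ x : X, Tendsto (fun i => w i • x) atTop (𝓝 (h • x))) (a : ℕ → X)
    (ha : ∀ i, w i • a i = a i) (p : X) :
    Tendsto (fun n => dist p (a n)) (hyperfilter ℕ : Filter ℕ) atTop := by
  rw [Filter.tendsto_atTop]
  intro B
  by_contra hcon
  rw [← Ultrafilter.eventually_not] at hcon
  have hball : ∀ᶠ i in (hyperfilter ℕ : Filter ℕ), a i ∈ closedBall p B := by
    filter_upwards [hcon] with i hi
    rw [mem_closedBall, dist_comm]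
    exact (not_le.1 hi).le
  have h1 : (((hyperfilter ℕ).map a : Ultrafilter X) : Filter X) ≤ 𝓟 (closedBall p B) := by
    rw [le_principal_iff]
    exact hball
  obtain ⟨b, -, hb⟩ := (isCompact_closedBall p B).ultrafilter_le_nhds ((hyperfilter ℕ).map a) h1
  have hb' : Tendsto a (hyperfilter ℕ : Filter ℕ) (𝓝 b) := hb
  have hw' : Tendsto (fun i => w i • b) (hyperfilter ℕ : Filter ℕ) (𝓝 (h • b)) :=
    (hw b).mono_left Nat.hyperfilter_le_atTop
  have h2 : Tendsto (fun i => dist b (a i) + dist b (a i) + dist (w i • b) (h • b))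
      (hyperfilter ℕ : Filter ℕ) (𝓝 (dist b b + dist b b + dist (h • b) (h • b))) :=
    ((tendsto_const_nhds.dist hb').add (tendsto_const_nhds.dist hb')).add
      (hw'.dist tendsto_const_nhds)
  rw [dist_self, dist_self, add_zero, add_zero] at h2
  have h3 : dist b (h • b) ≤ 0 := by
    refine ge_of_tendsto h2 (Eventually.of_forall fun i => ?_)
    have h4 := dist_triangle4 b (a i) (w i • b) (h • b)
    have h5 : dist (a i) (w i • b) = dist b (a i) := by
      conv_lhs => rw [← ha i]
      rw [dist_smul, dist_comm]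
    rw [h5] at h4
    exact h4
  linarith [hmin b]

end

/-- **LIM** -/
theorem t_lim2 (hI : Pool.Agent.Y34.HB.S_INV.{u, v}) (hW : Pool.Agent.Y34.HB.S_WIDE.{u, v}) :
    Pool.Agent.Q216.PD.S_LIM.{u, v} := by
  intro X₁ X₂ _ _ G _ _ _ hG h q τ c hq hτ hc hmin w hw hfix
  have hP := hG.proper₂
  have hIs := hG.isom₂
  have hCN := hG.cn₂
  choose a ha using hfix
  set p : X₂ := c 0 with hp
  have hD := far hP h τ hτ hmin w hw a ha p
  obtain ⟨σ, hσ, hlim⟩ := t_lray X₂ hCN p a hD
  obtain ⟨hst1, hst2, hst3⟩ := t_stew X₂ hCN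
  obtain ⟨-, hcmp⟩ := t_cmp X₂ hCN
  have hw' : ∀ (x : X₂) (ε : ℝ), 0 < ε → ∀ᶠ i in (hyperfilter ℕ : Filter ℕ),
      dist (w i • x) (h • x) ≤ ε := by
    intro x ε hε
    have h1 : Tendsto (fun i => w i • x) (hyperfilter ℕ : Filter ℕ) (𝓝 (h • x)) :=
      (hw x).mono_left Nat.hyperfilter_le_atTop
    filter_upwards [(tendsto_iff_dist_tendsto_zero.1 h1).eventually (gt_mem_nhds hε)] with i hi
    exact le_of_lt hi
  have hph : dist p (h • p) = τ := by
    rw [hp, hc.2, hc.1.dist_eq, Real.dist_eq, zero_add, zero_sub, abs_neg, abs_of_pos hτ]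
  -- the displacement along the ray
  have hdisp : ∀ t : ℝ, 0 ≤ t → dist (σ t) (h • σ t) = τ := by
    intro t ht
    refine le_antisymm ?_ (hmin _)
    refine le_of_forall_pos_le_add fun ε hε => ?_
    have hev : ∀ᶠ i in (hyperfilter ℕ : Filter ℕ), dist (σ t) (h • σ t) ≤ τ + ε := by
      filter_upwards [hD.eventually_ge_atTop (max t 1), hlim t (ε / 4) ht (by linarith),
        hw' p (ε / 4) (by linarith), hw' (σ t) (ε / 4) (by linarith)] with i h1 h2 h3 h4
      have hDt : t ≤ dist p (a i) := (le_max_left _ _).trans h1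
      have hD1 : 0 < dist p (a i) := lt_of_lt_of_le one_pos ((le_max_right _ _).trans h1)
      obtain ⟨y, hy⟩ := hst1 p (a i) t ht hDt
      have h5 := h2 y hy
      set l : ℝ := t / dist p (a i) with hl
      have hl0 : 0 ≤ l := div_nonneg ht hD1.le
      have hl1 : l ≤ 1 := (div_le_one hD1).2 hDt
      have hlD : l * dist p (a i) = t := by rw [hl, div_mul_cancel₀ _ hD1.ne']
      have hD2 : dist (w i • p) (a i) = dist p (a i) := by
        conv_lhs => rw [← ha i]
        rw [dist_smul]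
      have hy1 : On p (a i) (l * dist p (a i)) y := by rw [hlD]; exact hy
      have hy2 : On (w i • p) (a i) (l * dist (w i • p) (a i)) (w i • y) := by
        rw [hD2, hlD]
        refine ⟨by rw [dist_smul]; exact hy.1, ?_⟩
        rw [hD2]
        conv_lhs => rw [← ha i]
        rw [dist_smul]
        exact hy.2
      have h6 := hcmp p (a i) (w i • p) (a i) l y (w i • y) hy1 hy2 hl0 hl1
      rw [dist_self, mul_zero, add_zero] at h6
      have h7 : dist p (w i • p) ≤ τ + ε / 4 := by
        have := dist_triangle p (h • p) (w i • p)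
        rw [hph, dist_comm (h • p)] at this
        linarith
      have h8 : dist y (w i • y) ≤ dist p (w i • p) := by
        refine h6.trans ?_
        have h0 : 0 ≤ dist p (w i • p) := dist_nonneg
        nlinarith
      have h9 := dist_triangle4 (σ t) y (w i • y) (h • σ t)
      have h10 := dist_triangle (w i • y) (w i • σ t) (h • σ t)
      rw [dist_smul] at h10
      rw [dist_comm (σ t) y] at h9
      linarith
    obtain ⟨i, hi⟩ := hev.exists
    exact hi
  -- the distance to the axis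
  have hstep : ∀ (x : X₂) (ε : ℝ), 0 < ε → ∀ᶠ i in (hyperfilter ℕ : Filter ℕ),
      |dist (h • x) (a i) - dist x (a i)| ≤ ε := by
    intro x ε hε
    filter_upwards [hw' x ε hε] with i hi
    have h1 : dist (w i • x) (a i) = dist x (a i) := by
      conv_lhs => rw [← ha i]
      rw [dist_smul]
    have h2 := dist_triangle (h • x) (w i • x) (a i)
    have h3 := dist_triangle (w i • x) (h • x) (a i)
    rw [dist_comm (h • x) (w i • x)] at h2
    rw [abs_le]
    constructor <;> linarith
  have hk : ∀ (k : ℤ) (ε : ℝ), 0 < ε → ∀ᶠ i in (hyperfilter ℕ : Filter ℕ),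
      |dist (c (k * τ)) (a i) - dist p (a i)| ≤ ε := by
    intro k
    induction k using Int.induction_on with
    | zero =>
      intro ε hε
      refine Eventually.of_forall fun i => ?_
      rw [Int.cast_zero, zero_mul, ← hp, sub_self, abs_zero]
      exact hε.le
    | succ k ih =>
      intro ε hε
      have e : c (((k : ℤ) + 1 : ℤ) * τ) = h • c ((k : ℤ) * τ) := by
        rw [hc.2]
        congr 1
        push_cast
        ring
      filter_upwards [ih (ε / 2) (by linarith), hstep (c ((k : ℤ) * τ)) (ε / 2) (by linarith)]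
        with i h1 h2
      rw [e]
      rw [abs_le] at h1 h2 ⊢
      constructor <;> linarith [h1.1, h1.2, h2.1, h2.2]
    | pred k ih =>
      intro ε hε
      have e : c ((-(k : ℤ) : ℤ) * τ) = h • c ((-(k : ℤ) - 1 : ℤ) * τ) := by
        rw [hc.2]
        congr 1
        push_cast
        ring
      filter_upwards [ih (ε / 2) (by linarith), hstep (c ((-(k : ℤ) - 1 : ℤ) * τ)) (ε / 2)
        (by linarith)] with i h1 h2
      rw [e] at h1
      rw [abs_le] at h1 h2 ⊢
      constructor <;> linarith [h1.1, h1.2, h2.1, h2.2]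
  have hfar : ∀ t s : ℝ, 0 ≤ t → t - τ ≤ dist (σ t) (c s) := by
    intro t s ht
    set k : ℤ := ⌊s / τ⌋ with hkdef
    have hks : dist (c s) (c (k * τ)) ≤ τ := by
      rw [hc.1.dist_eq, Real.dist_eq, abs_le]
      have h1 : (k : ℝ) ≤ s / τ := Int.floor_le _
      have h2 : s / τ < k + 1 := Int.lt_floor_add_one _
      rw [le_div_iff₀ hτ] at h1
      rw [div_lt_iff₀ hτ] at h2
      constructor <;> linarith
    have h0 : t ≤ dist (σ t) (c (k * τ)) := by
      refine le_of_forall_pos_le_add fun ε hε => ?_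
      have hev : ∀ᶠ i in (hyperfilter ℕ : Filter ℕ), t ≤ dist (σ t) (c (k * τ)) + ε := by
        filter_upwards [hD.eventually_ge_atTop t, hlim t (ε / 2) ht (by linarith),
          hk k (ε / 2) (by linarith)] with i h1 h2 h3
        obtain ⟨y, hy⟩ := hst1 p (a i) t ht h1
        have h5 := h2 y hy
        have h6 := hy.2
        have h7 := dist_triangle4 (c (k * τ)) (σ t) y (a i)
        rw [abs_le] at h3
        rw [dist_comm (c (k * τ)) (σ t), dist_comm (σ t) y] at h7
        linarith [h3.1]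
      obtain ⟨i, hi⟩ := hev.exists
      exact hi
    have h2 := dist_triangle (σ t) (c s) (c (k * τ))
    linarith
  -- the strips
  have hL : ∀ (c' : ℝ → X₂), Axis h τ c' →
      Axis h τ (fun s => (⟨q, c' s⟩ : Pr X₁ X₂)) := by
    intro c' hc'
    refine ⟨Isometry.of_dist_eq fun s t => ?_, fun t => ?_⟩
    · rw [dist_def]
      simp only
      rw [dist_self, hc'.1.dist_eq, zero_pow two_ne_zero, zero_add, Real.sqrt_sq dist_nonneg]
    · refine Pr.ext ?_ ?_
      · rw [smul_fst]
        exact hq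
      · rw [smul_snd]
        exact hc'.2 t
  refine hW (Pr X₁ X₂) G hG.geo τ hτ fun n => ?_
  have ht : (0 : ℝ) ≤ n + τ := by positivity
  obtain ⟨c', hc', hc0⟩ := axis_min hCN h (σ (n + τ)) τ (hdisp _ ht) hτ hmin
  obtain ⟨S, o, hS, -, -, hS3, -⟩ := hI (Pr X₁ X₂) G hG.geo h τ hτ
    (fun s => (⟨q, c' s⟩ : Pr X₁ X₂)) (fun s => (⟨q, c s⟩ : Pr X₁ X₂)) (hL c' hc') (hL c hc)
  have hDD : (n : ℝ) ≤ DD (fun s => (⟨q, c' s⟩ : Pr X₁ X₂)) (fun s => (⟨q, c s⟩ : Pr X₁ X₂)) := by
    unfold DD
    refine (le_infDist (range_nonempty _)).2 ?_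
    rintro _ ⟨s, rfl⟩
    have h1 := hfar (n + τ) s ht
    have h2 := snd_le (⟨q, c' 0⟩ : Pr X₁ X₂) (⟨q, c s⟩ : Pr X₁ X₂)
    simp only at h2
    rw [hc0] at h2
    simp only
    rw [hc0]
    linarith
  refine ⟨h, S, fun t s t' s' h1 h2 h3 h4 => hS t s t' s' h1 (h2.trans hDD) h3 (h4.trans hDD),
    fun t s h1 h2 => hS3 t s h1 (h2.trans hDD)⟩

end Pool.Agent.Q184.PD
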